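import Pool.Agent.Lib.MP_7682a8_an.KB.Iface

/-!
MP_7682a8_an, project KB: the chain 1/16 → 1/14.2 → 1/14.02 → 1/14.
-/

set_option autoImplicit false

open Metric Set

namespace Pool.Agent.Lib.MP_7682a8_an.KB.H74

open Pool.Agent.Lib.MP_7682a8_an.KB

theorem COV_mono {d d' : ℝ} (hdd : d' ≤ d) (hC : COV d) : COV d' := by
  intro h g a1 a2 a3 a4 a5 a6 a7 a8
  exact (ball_subset_ball hdd).trans (hC h g a1 a2 a3 a4 a5 a6 a7 a8)

theorem exp_lower {x : ℝ} (hx : |x| ≤ 1) :
    1 + x + x ^ 2 / 2 + x ^ 3 / 6 - |x| ^ 4 * (5 / 96) ≤ Real.exp x := by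
  have h := Real.exp_bound hx (n := 4) (by norm_num)
  have h2 := (abs_le.1 h).1
  simp only [Finset.sum_range_succ, Finset.sum_range_zero, Nat.factorial] at h2
  norm_num at h2
  linarith

theorem chain (hF0 : Fi0Stmt) (hF1 : Fi1Stmt) (hN : NumStmt) : COV (1 / 14) := by
  obtain ⟨n1, n2, n3⟩ := hN
  have c0 : COV (1 / (2 * 8)) := by
    have h : (1 : ℝ) / (2 * 8) = 1 / 16 := by norm_num
    rw [h]
    exact hF0
  have c1 := hF1 _ _ _ n1 c0
  have c1' : COV (1 / (2 * (71 / 10))) := by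
    refine COV_mono ?_ c1
    have h := exp_lower (x := -(19 / 500)) (by rw [abs_le]; constructor <;> norm_num)
    have h3 : |(-(19 / 500) : ℝ)| = 19 / 500 := by rw [abs_neg, abs_of_pos (by norm_num)]
    rw [h3] at h
    norm_num at h ⊢
    linarith
  have c2 := hF1 _ _ _ n2 c1'
  have c2' : COV (1 / (2 * (701 / 100))) := by
    refine COV_mono ?_ c2
    have h := exp_lower (x := -(411 / 10000)) (by rw [abs_le]; constructor <;> norm_num)
    have h3 : |(-(411 / 10000) : ℝ)| = 411 / 10000 := by rw [abs_neg, abs_of_pos (by norm_num)]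
    rw [h3] at h
    norm_num at h ⊢
    linarith
  have c3 := hF1 _ _ _ n3 c2'
  refine COV_mono ?_ c3
  have h := exp_lower (x := -(203 / 5000)) (by rw [abs_le]; constructor <;> norm_num)
  have h3 : |(-(203 / 5000) : ℝ)| = 203 / 5000 := by rw [abs_neg, abs_of_pos (by norm_num)]
  rw [h3] at h
  norm_num at h ⊢
  linarith

end Pool.Agent.Lib.MP_7682a8_an.KB.H74
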