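import Pool.Agent.Lib.MP_7682a8_an.KB.Iface

/-!
MP_7682a8_an, project KB, module FI1: one step of the iteration.
-/

set_option autoImplicit false

open Metric Set MeasureTheory Filter
open scoped Topology

namespace Pool.Agent.Lib.MP_7682a8_an.KB.H74

open Pool.Agent.Lib.MP_7682a8_an.KB

/-- `J(r)/r` is interval integrable on compact subintervals of `(0,1)` -/
theorem JJ_int (hCon : ConStmt) {h g : ℂ → ℂ} {δ : ℝ} {ξ : ℂ → ℂ} (hO : Om h g δ)
    (hB : Br h g δ ξ) {x y : ℝ} (hx : 0 < x) (hxy : x ≤ y) (hy : y < 1) :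
    IntervalIntegrable (fun r => JJ h g δ ξ r / r) volume x y := by
  obtain ⟨-, -, -, -, hJ, -⟩ := hCon h g δ ξ hO hB
  apply ContinuousOn.intervalIntegrable
  rw [Set.uIcc_of_le hxy]
  have hsub : Set.Icc x y ⊆ Set.Ioo 0 1 := fun r hr => ⟨lt_of_lt_of_le hx hr.1, lt_of_le_of_lt hr.2 hy⟩
  exact (hJ.mono hsub).div continuousOn_id (fun r hr => (hsub hr).1.ne')

theorem fi1 (hSch : SchStmt) (hGri : GriStmt) (hRot : RotStmt) (hBrn : BrnStmt) (hGro : GroStmt)
    (hCon : ConStmt) (hOut : OutStmt) (hInn : InnStmt) (hLim : LimStmt) : Fi1Stmt := by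
  intro κ R L hG hC
  apply hRot
  intro h g δ hO
  obtain ⟨ξ, hB⟩ := hBrn h g δ hO
  have hS : Sw h g := hSch h g hO.dh hO.dg hO.g1 hO.lt
  have hκ := hG.κ0
  have hd : (0 : ℝ) < 1 / (2 * κ) := by positivity
  have hgrow := hGro h g δ ξ (1 / (2 * κ)) hO hB hS hd (hGri _ h g δ hd hC hO)
  have hbd : ∀ z ∈ ball (0 : ℂ) 1, ‖ξ z‖ ≤ κ * ‖z‖ / (1 - ‖z‖) := by
    intro z hz
    refine (hgrow z hz).trans (le_of_eq ?_)
    have hz1 : ‖z‖ < 1 := by simpa using hz
    have hz2 : (1 : ℝ) - ‖z‖ ≠ 0 := by linarith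
    field_simp
  obtain ⟨η, hη, hin⟩ := hInn κ R L h g δ ξ hG hO hB hS hbd
  have hR0 := hG.R0
  have hR1 := hG.R1
  have hpi : (0 : ℝ) < Real.pi := Real.pi_pos
  -- the inequality for every ρ
  have key : ∀ ρ : ℝ, R < ρ → ρ < 1 →
      Real.log ρ - (L + 2 * Real.log ((1 + ρ) / (1 + R))) ≤ Real.log (4 * δ) := by
    intro ρ hRρ hρ1
    have hρ0 : 0 < ρ := hR0.trans hRρ
    refine hLim h g δ ξ ρ _ η hO hB hS hρ0 hρ1 hη ?_
    have hev : ∀ᶠ ε : ℝ in 𝓝[>] (0 : ℝ), 0 < ε ∧ ε < R := by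
      have h1 : Set.Ioo (0 : ℝ) R ∈ 𝓝[>] (0 : ℝ) := Ioo_mem_nhdsGT hR0
      filter_upwards [h1] with ε hε using ⟨hε.1, hε.2⟩
    filter_upwards [hev] with ε hε
    have h1 := hin ε hε.1 hε.2
    have h2 := hOut h g δ ξ R ρ hO hB hS hR0 hRρ.le hρ1
    have h3 : ∫ r in ε..ρ, JJ h g δ ξ r / r =
        (∫ r in ε..R, JJ h g δ ξ r / r) + ∫ r in R..ρ, JJ h g δ ξ r / r := by
      rw [intervalIntegral.integral_add_adjacent_intervals
        (JJ_int hCon hO hB hε.1 hε.2.le hR1) (JJ_int hCon hO hB hR0 hRρ.le hρ1)]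
    have h4 : Real.log (ρ / ε) = Real.log (R / ε) + Real.log (ρ / R) := by
      rw [← Real.log_mul (by have := hε.1; positivity) (by positivity)]
      congr 1
      have h5 : ε ≠ 0 := hε.1.ne'
      field_simp
    rw [h3, h4]
    nlinarith [h1, h2]
  -- ρ → 1
  have hlim : Real.log 1 - (L + 2 * Real.log ((1 + 1) / (1 + R))) ≤ Real.log (4 * δ) := by
    have hcont : ContinuousAt (fun ρ : ℝ => Real.log ρ - (L + 2 * Real.log ((1 + ρ) / (1 + R)))) 1 := by
      have h1 : ContinuousAt (fun ρ : ℝ => Real.log ρ) 1 :=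
        Real.continuousAt_log one_ne_zero
      have h2 : ContinuousAt (fun ρ : ℝ => Real.log ((1 + ρ) / (1 + R))) 1 := by
        apply ContinuousAt.log
        · fun_prop
        · positivity
      exact h1.sub ((continuousAt_const).add (continuousAt_const.mul h2))
    have ht : Tendsto (fun ρ : ℝ => Real.log ρ - (L + 2 * Real.log ((1 + ρ) / (1 + R))))
        (𝓝[<] (1 : ℝ)) (𝓝 (Real.log 1 - (L + 2 * Real.log ((1 + 1) / (1 + R))))) :=
      hcont.tendsto.mono_left nhdsWithin_le_nhds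
    refine le_of_tendsto ht ?_
    have h1 : Set.Ioo R (1 : ℝ) ∈ 𝓝[<] (1 : ℝ) := Ioo_mem_nhdsLT hR1
    filter_upwards [h1] with ρ hρ using key ρ hρ.1 hρ.2
  have hδ := hO.pos
  have h5 : Real.log ((1 + R) ^ 2 / 4 * Real.exp (-L)) ≤ Real.log (4 * δ) := by
    have h6 : Real.log ((1 + R) ^ 2 / 4 * Real.exp (-L)) =
        Real.log 1 - (L + 2 * Real.log ((1 + 1) / (1 + R))) := by
      rw [Real.log_mul (by positivity) (Real.exp_pos _).ne', Real.log_exp, Real.log_one,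
        Real.log_div (by positivity) (by norm_num), Real.log_div (by norm_num) (by positivity),
        Real.log_pow]
      have h7 : Real.log (4 : ℝ) = 2 * Real.log (1 + 1) := by
        rw [show (4 : ℝ) = (1 + 1) ^ 2 by norm_num, Real.log_pow]
        norm_num
      rw [h7]
      push_cast
      ring
    rw [h6]
    exact hlim
  have h8 : (1 + R) ^ 2 / 4 * Real.exp (-L) ≤ 4 * δ :=
    (Real.log_le_log_iff (by positivity) (by positivity)).1 h5
  linarith

end Pool.Agent.Lib.MP_7682a8_an.KB.H74
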