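import Pool.Agent.Lib.MP_7682a8_an.KB.Iface

/-!
MP_7682a8_an, project KB, module LIM: the limit at the origin.
-/

set_option autoImplicit false

open Metric Set MeasureTheory Filter
open scoped Topology

namespace Pool.Agent.Lib.MP_7682a8_an.KB.H74

open Pool.Agent.Lib.MP_7682a8_an.KB

theorem lim (hArf : ArfStmt) (hAsy : AsyStmt) : LimStmt := by
  intro h g δ ξ ρ c η hO hB hS hρ0 hρ1 hη hev
  have hδ := hO.pos
  have hpi : (0 : ℝ) < Real.pi := Real.pi_pos
  obtain ⟨hq, -, -⟩ := hAsy h g δ ξ hO hB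
  -- the inequality for every τ
  have key : ∀ τ : ℝ, 0 < τ → τ < 1 →
      Real.log ρ - c ≤ Real.log (4 * δ) - Real.log (1 - τ) := by
    intro τ hτ0 hτ1
    have h1 : Tendsto (fun z => ‖qq ξ z / z‖) (𝓝[≠] (0 : ℂ)) (𝓝 (1 / (4 * δ))) := by
      have h2 := hq.norm
      have h3 : ‖(1 / (4 * (δ : ℂ)))‖ = 1 / (4 * δ) := by
        rw [norm_div, norm_mul, Complex.norm_real, Real.norm_eq_abs, abs_of_pos hδ]
        norm_num
      rwa [h3] at h2
    have h2 : ∀ᶠ z in 𝓝[≠] (0 : ℂ), (1 - τ) / (4 * δ) < ‖qq ξ z / z‖ := by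
      apply h1.eventually_const_lt
      apply div_lt_div_of_pos_right _ (by positivity)
      linarith
    rw [eventually_nhdsWithin_iff, Metric.eventually_nhds_iff] at h2
    obtain ⟨s, hs0, hs⟩ := h2
    have hev2 : ∀ᶠ ε : ℝ in 𝓝[>] (0 : ℝ), 0 < ε ∧ ε < s ∧ ε < ρ := by
      have h3 : Set.Ioo (0 : ℝ) (min s ρ) ∈ 𝓝[>] (0 : ℝ) := Ioo_mem_nhdsGT (lt_min hs0 hρ0)
      filter_upwards [h3] with ε hε
      exact ⟨hε.1, lt_of_lt_of_le hε.2 (min_le_left _ _), lt_of_lt_of_le hε.2 (min_le_right _ _)⟩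
    have hev3 : ∀ᶠ ε : ℝ in 𝓝[>] (0 : ℝ), Real.log ρ - c - η ε / (2 * Real.pi) ≤
        Real.log (4 * δ) - Real.log (1 - τ) := by
      filter_upwards [hev, hev2] with ε h3 h4
      obtain ⟨he0, hes, heρ⟩ := h4
      have hm0 : 0 < (1 - τ) * ε / (4 * δ) := by
        have : 0 < 1 - τ := by linarith
        positivity
      have hm : ∀ z : ℂ, ‖z‖ = ε → (1 - τ) * ε / (4 * δ) ≤ ‖qq ξ z‖ := by
        intro z hz
        have hz0 : z ≠ 0 := by
          intro h0
          rw [h0, norm_zero] at hz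
          linarith
        have h5 := hs (y := z) (by rw [dist_zero_right, hz]; exact hes) hz0
        rw [norm_div, lt_div_iff₀ (by rw [hz]; exact he0), hz] at h5
        have h6 : (1 - τ) * ε / (4 * δ) = (1 - τ) / (4 * δ) * ε := by ring
        rw [h6]
        exact h5.le
      have h5 := hArf h g δ ξ ε ρ _ hO hB hS he0 heρ hρ1 hm0 hm
      have h6 : Real.log (1 / ((1 - τ) * ε / (4 * δ))) =
          Real.log (4 * δ) - Real.log (1 - τ) - Real.log ε := by
        rw [one_div, inv_div, Real.log_div (by positivity) (by nlinarith),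
          Real.log_mul (by linarith) he0.ne']
        ring
      have h7 : Real.log (ρ / ε) = Real.log ρ - Real.log ε :=
        Real.log_div hρ0.ne' he0.ne'
      rw [h6] at h5
      rw [h7] at h3
      have h8 : 2 * Real.pi * (Real.log ρ - Real.log ε) - 2 * Real.pi * c - η ε ≤
          2 * Real.pi * (Real.log (4 * δ) - Real.log (1 - τ) - Real.log ε) := h3.trans h5
      have h9 : η ε / (2 * Real.pi) * (2 * Real.pi) = η ε := by
        field_simp
      have h10 : (Real.log ρ - c - η ε / (2 * Real.pi)) * (2 * Real.pi) ≤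
          (Real.log (4 * δ) - Real.log (1 - τ)) * (2 * Real.pi) := by
        nlinarith
      exact le_of_mul_le_mul_right h10 (by positivity)
    have ht : Tendsto (fun ε : ℝ => Real.log ρ - c - η ε / (2 * Real.pi)) (𝓝[>] (0 : ℝ))
        (𝓝 (Real.log ρ - c - 0 / (2 * Real.pi))) :=
      tendsto_const_nhds.sub (hη.div_const _)
    have h3 := le_of_tendsto ht hev3
    simpa using h3
  -- τ → 0
  have ht : Tendsto (fun τ : ℝ => Real.log (4 * δ) - Real.log (1 - τ)) (𝓝[>] (0 : ℝ))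
      (𝓝 (Real.log (4 * δ) - Real.log (1 - 0))) := by
    have hc : ContinuousAt (fun τ : ℝ => Real.log (4 * δ) - Real.log (1 - τ)) 0 := by
      apply continuousAt_const.sub
      apply ContinuousAt.log
      · fun_prop
      · norm_num
    exact hc.tendsto.mono_left nhdsWithin_le_nhds
  have h1 : ∀ᶠ τ : ℝ in 𝓝[>] (0 : ℝ), Real.log ρ - c ≤ Real.log (4 * δ) - Real.log (1 - τ) := by
    have h3 : Set.Ioo (0 : ℝ) 1 ∈ 𝓝[>] (0 : ℝ) := Ioo_mem_nhdsGT one_pos
    filter_upwards [h3] with τ hτ using key τ hτ.1 hτ.2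
  have h2 := ge_of_tendsto ht h1
  simpa using h2

end Pool.Agent.Lib.MP_7682a8_an.KB.H74
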