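import Pool.Agent.Lib.MP_7682a8_an.KB.Iface
import Pool.Agent.Lib.MP_7682a8_an.KB.H5.Sch
import Pool.Agent.Lib.MP_7682a8_an.KB.H88.Ktr
import Pool.Agent.Lib.MP_7682a8_an.KB.H70.Gri
import Pool.Agent.Lib.MP_7682a8_an.KB.H70.Fi0
import Pool.Agent.Lib.MP_7682a8_an.KB.H18.Rot
import Pool.Agent.Lib.MP_7682a8_an.KB.H96.Brn
import Pool.Agent.Lib.MP_7682a8_an.KB.H30.Gro
import Pool.Agent.Lib.MP_7682a8_an.KB.H40.ConRow
import Pool.Agent.Lib.MP_7682a8_an.KB.H94.Qde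
import Pool.Agent.Lib.MP_7682a8_an.KB.H31.Top
import Pool.Agent.Lib.MP_7682a8_an.KB.H91.Are
import Pool.Agent.Lib.MP_7682a8_an.KB.H22.Pol
import Pool.Agent.Lib.MP_7682a8_an.KB.H76.Arf
import Pool.Agent.Lib.MP_7682a8_an.KB.H76.Pwb
import Pool.Agent.Lib.MP_7682a8_an.KB.H44.Asb
import Pool.Agent.Lib.MP_7682a8_an.KB.H65.Nlg
import Pool.Agent.Lib.MP_7682a8_an.KB.H9.Wnd
import Pool.Agent.Lib.MP_7682a8_an.KB.H9.Out
import Pool.Agent.Lib.MP_7682a8_an.KB.H84.Bdr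
import Pool.Agent.Lib.MP_7682a8_an.KB.H23.Pwa
import Pool.Agent.Lib.MP_7682a8_an.KB.H6.SUP
import Pool.Agent.Lib.MP_7682a8_an.KB.H2.Num
import Pool.Agent.Lib.MP_7682a8_an.KB.H74.Lim
import Pool.Agent.Lib.MP_7682a8_an.KB.H74.Fi1
import Pool.Agent.Lib.MP_7682a8_an.KB.H74.Chain

/-!
MP_7682a8_an, project KB: assembly of the modules.
-/

set_option autoImplicit false

namespace Pool.Agent.Lib.MP_7682a8_an.KB.H74

open Pool.Agent.Lib.MP_7682a8_an.KB

theorem cov14_of (hDer : DerStmt) (hAsy : AsyStmt)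
    (hInn : ConStmt → WndStmt → BdrStmt → AsbStmt → PwaStmt → SupStmt → InnStmt) :
    COV (1 / 14) := by
  have hSch : SchStmt := H5.sch
  have hKtr : KtrStmt := H88.ktr
  have hGri : GriStmt := H70.gri hSch hKtr
  have hRot : RotStmt := H18.rot
  have hBrn : BrnStmt := H96.brn
  have hGro : GroStmt := H30.gro hDer
  have hCon : ConStmt := H40.con
  have hQde : QdeStmt := H94.qde hDer
  have hTop : TopStmt := H31.top hQde hCon
  have hArf : ArfStmt := H76.arf hQde hTop H91.are H22.pol hCon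
  have hWnd : WndStmt := H9.wnd hQde hCon hAsy
  have hOut : OutStmt := H9.out hCon hWnd H76.pwb
  have hBdr : BdrStmt := H84.bdr hQde hCon H65.nlg
  have hAsb : AsbStmt := H44.asb hAsy
  have hI : InnStmt := hInn hCon hWnd hBdr hAsb pwa H6.sup_st
  have hLim : LimStmt := lim hArf hAsy
  have h0 : Fi0Stmt := H70.fi0 hSch hRot hBrn hOut hLim
  have h1 : Fi1Stmt := fi1 hSch hGri hRot hBrn hGro hCon hOut hI hLim
  exact chain h0 h1 H2.num

end Pool.Agent.Lib.MP_7682a8_an.KB.H74
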