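import Pool.Agent.Lib.MP_7682a8_an.KB.H74.Der

/-! Module ASY (backup): behaviour at the origin. -/

set_option autoImplicit false

open Metric Set MeasureTheory Filter
open scoped Topology

namespace Pool.Agent.Lib.MP_7682a8_an.KB.H74

open Pool.Agent.Lib.MP_7682a8_an.KB

noncomputable section

theorem asy : AsyStmt := by
  intro h g δ ξ hom hbr
  have hδ : (δ : ℂ) ≠ 0 := by exact_mod_cast hom.pos.ne'
  have h0 : (0 : ℂ) ∈ ball (0 : ℂ) 1 := mem_ball_self one_pos
  have hnhds : ball (0 : ℂ) 1 ∈ 𝓝 (0 : ℂ) := isOpen_ball.mem_nhds h0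
  have hpun : ball (0 : ℂ) 1 ∈ 𝓝[≠] (0 : ℂ) := mem_nhdsWithin_of_mem_nhds hnhds
  -- `h z / z → 1`, `g z / z → 0`
  have hh : Tendsto (fun z => h z / z) (𝓝[≠] (0 : ℂ)) (𝓝 1) := by
    have h1 : HasDerivAt h 1 0 := by
      rw [← hom.h1]
      exact (hom.dh.differentiableAt hnhds).hasDerivAt
    have h2 := h1.tendsto_slope
    refine h2.congr' ?_
    filter_upwards with z
    simp [slope_def_field, hom.h0]
  have hg : Tendsto (fun z => g z / z) (𝓝[≠] (0 : ℂ)) (𝓝 0) := by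
    have h1 : HasDerivAt g 0 0 := by
      have h3 := (hom.dg.differentiableAt hnhds).hasDerivAt
      rw [hom.g1] at h3
      exact h3
    have h2 := h1.tendsto_slope
    refine h2.congr' ?_
    filter_upwards with z
    simp [slope_def_field, hom.g0]
  have hgc : Tendsto (fun z => starRingEnd ℂ (g z) / z) (𝓝[≠] (0 : ℂ)) (𝓝 0) := by
    rw [tendsto_zero_iff_norm_tendsto_zero] at hg ⊢
    refine hg.congr ?_
    intro z
    simp
  have hf : Tendsto (fun z => (h z + starRingEnd ℂ (g z)) / z) (𝓝[≠] (0 : ℂ)) (𝓝 1) := by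
    have := hh.add hgc
    rw [add_zero] at this
    refine this.congr ?_
    intro z
    rw [add_div]
  -- continuity of the derivatives
  have hh' : Tendsto (deriv h) (𝓝[≠] (0 : ℂ)) (𝓝 1) := by
    have h1 : ContinuousAt (deriv h) 0 :=
      ((hom.dh.deriv isOpen_ball).differentiableAt hnhds).continuousAt
    have h2 : Tendsto (deriv h) (𝓝 0) (𝓝 (deriv h 0)) := h1
    rw [hom.h1] at h2
    exact h2.mono_left nhdsWithin_le_nhds
  have hg' : Tendsto (deriv g) (𝓝[≠] (0 : ℂ)) (𝓝 0) := by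
    have h1 : ContinuousAt (deriv g) 0 :=
      ((hom.dg.deriv isOpen_ball).differentiableAt hnhds).continuousAt
    have h2 : Tendsto (deriv g) (𝓝 0) (𝓝 (deriv g 0)) := h1
    rw [hom.g1] at h2
    exact h2.mono_left nhdsWithin_le_nhds
  have hξ : Tendsto ξ (𝓝[≠] (0 : ℂ)) (𝓝 0) := by
    have h1 : Tendsto ξ (𝓝 0) (𝓝 (ξ 0)) := hbr.cont.continuousAt hnhds
    rw [hbr.zero] at h1
    exact h1.mono_left nhdsWithin_le_nhds
  have hexp : Tendsto (fun z => Complex.exp (ξ z)) (𝓝[≠] (0 : ℂ)) (𝓝 1) := by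
    have := (Complex.continuous_exp.tendsto 0).comp hξ
    rw [Complex.exp_zero] at this
    exact this
  have hev : ∀ᶠ z in 𝓝[≠] (0 : ℂ), z ≠ 0 := self_mem_nhdsWithin
  refine ⟨?_, ?_, ?_⟩
  · -- `q/z = ((G² - 1)/z) / (G + 1)²`
    have h1 : Tendsto (fun z => (h z + starRingEnd ℂ (g z)) / z / (δ : ℂ) /
        (Complex.exp (ξ z) + 1) ^ 2) (𝓝[≠] (0 : ℂ)) (𝓝 ((1 : ℂ) / (δ : ℂ) / (1 + 1) ^ 2)) := by
      refine (hf.div_const (δ : ℂ)).div ((hexp.add_const 1).pow 2) ?_
      norm_num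
    have e0 : (1 / (δ : ℂ) / (1 + 1) ^ 2) = 1 / (4 * (δ : ℂ)) := by
      field_simp
      norm_num
    rw [e0] at h1
    have hne : ∀ᶠ z in 𝓝[≠] (0 : ℂ), Complex.exp (ξ z) + 1 ≠ 0 := by
      have h3 : Tendsto (fun z => Complex.exp (ξ z) + 1) (𝓝[≠] (0 : ℂ)) (𝓝 (1 + 1)) :=
        hexp.add_const 1
      exact h3.eventually_ne (by norm_num)
    refine h1.congr' ?_
    filter_upwards [hpun, hev, hne] with z hz hz0 hz1
    rw [← hbr.exp z hz]
    have e2 : Complex.exp (2 * ξ z) = Complex.exp (ξ z) ^ 2 := by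
      rw [← Complex.exp_nat_mul]
      norm_num
    rw [e2]
    unfold qq
    field_simp
    ring
  · have h1 : Tendsto (fun z => deriv h z / ((h z + starRingEnd ℂ (g z)) / z *
        Complex.exp (ξ z))) (𝓝[≠] (0 : ℂ)) (𝓝 (1 / (1 * 1))) := by
      refine hh'.div (hf.mul hexp) ?_
      norm_num
    rw [mul_one, div_one] at h1
    refine h1.congr' ?_
    filter_upwards [hpun, hev] with z hz hz0
    unfold aa
    rw [hbr.exp z hz]
    rw [div_mul_eq_mul_div, div_div_eq_mul_div, mul_comm]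
  · have h1 : Tendsto (fun z => deriv g z / ((h z + starRingEnd ℂ (g z)) / z *
        Complex.exp (ξ z))) (𝓝[≠] (0 : ℂ)) (𝓝 (0 / (1 * 1))) := by
      refine hg'.div (hf.mul hexp) ?_
      norm_num
    rw [zero_div] at h1
    rw [tendsto_zero_iff_norm_tendsto_zero] at h1 ⊢
    refine h1.congr' ?_
    filter_upwards [hpun, hev] with z hz hz0
    unfold bb
    rw [hbr.exp z hz]
    simp only [norm_div, norm_mul, RCLike.norm_conj]
    rw [div_mul_eq_mul_div, div_div_eq_mul_div, mul_comm]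

end

end Pool.Agent.Lib.MP_7682a8_an.KB.H74
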