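import Pool.Agent.Lib.MP_7682a8_an.KB.Iface

/-! Module DER (backup): the derivative of the branch. -/

set_option autoImplicit false

open Metric Set MeasureTheory Filter
open scoped Topology

namespace Pool.Agent.Lib.MP_7682a8_an.KB.H74

open Pool.Agent.Lib.MP_7682a8_an.KB

noncomputable section

theorem der : DerStmt := by
  intro h g δ ξ hom hbr z hz
  have hδ : (δ : ℂ) ≠ 0 := by exact_mod_cast hom.pos.ne'
  have hnhds : ball (0 : ℂ) 1 ∈ 𝓝 z := isOpen_ball.mem_nhds hz
  have hh : HasDerivAt h (deriv h z) z := (hom.dh.differentiableAt hnhds).hasDerivAt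
  have hg : HasDerivAt g (deriv g z) z := (hom.dg.differentiableAt hnhds).hasDerivAt
  -- the real derivative of `f`
  have hf : HasFDerivAt (fun w => h w + starRingEnd ℂ (g w))
      (wd (deriv h z) (starRingEnd ℂ (deriv g z))) z := by
    have h1 : HasFDerivAt h ((deriv h z) • ContinuousLinearMap.id ℝ ℂ) z := by
      have := hh.hasFDerivAt.restrictScalars ℝ
      refine this.congr_fderiv ?_
      ext v <;> simp [mul_comm]
    have h2 : HasFDerivAt g ((deriv g z) • ContinuousLinearMap.id ℝ ℂ) z := by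
      have := hg.hasFDerivAt.restrictScalars ℝ
      refine this.congr_fderiv ?_
      ext v <;> simp [mul_comm]
    have h3 : HasFDerivAt (fun w => starRingEnd ℂ (g w))
        ((Complex.conjCLE : ℂ →L[ℝ] ℂ).comp ((deriv g z) • ContinuousLinearMap.id ℝ ℂ)) z :=
      (Complex.conjCLE : ℂ →L[ℝ] ℂ).hasFDerivAt.comp z h2
    refine (h1.add h3).congr_fderiv ?_
    apply ContinuousLinearMap.ext
    intro v
    simp [wd]
  have hne : Complex.exp (2 * ξ z) ≠ 0 := Complex.exp_ne_zero _
  have hF : ff h g z + δ = δ * Complex.exp (2 * ξ z) := by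
    have := hbr.exp z hz
    unfold ff
    rw [← this]
    ring
  have hFne : ff h g z + δ ≠ 0 := by
    rw [hF]
    exact mul_ne_zero hδ hne
  -- the quotient
  have hq : HasFDerivAt (fun w => (h w + starRingEnd ℂ (g w) + δ) / (ff h g z + δ))
      ((1 / (ff h g z + δ)) • wd (deriv h z) (starRingEnd ℂ (deriv g z))) z := by
    have h1 := (hf.add_const (δ : ℂ)).const_mul (1 / (ff h g z + δ))
    refine h1.congr_of_eventuallyEq (Eventually.of_forall fun w => ?_)
    simp only
    ring
  have hlog : HasFDerivAt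
      (fun w => Complex.log ((h w + starRingEnd ℂ (g w) + δ) / (ff h g z + δ)))
      ((1 / (ff h g z + δ)) • wd (deriv h z) (starRingEnd ℂ (deriv g z))) z := by
    have e1 : (h z + starRingEnd ℂ (g z) + δ) / (ff h g z + δ) = 1 := by
      unfold ff at hFne ⊢
      exact div_self hFne
    have hl : HasFDerivAt Complex.log
        ((ContinuousLinearMap.id ℝ ℂ)) ((h z + starRingEnd ℂ (g z) + δ) / (ff h g z + δ)) := by
      rw [e1]
      have h0 : HasDerivAt Complex.log (1 : ℂ)⁻¹ 1 := Complex.hasDerivAt_log (by simp)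
      have := h0.hasFDerivAt.restrictScalars ℝ
      refine this.congr_fderiv ?_
      ext v <;> simp
    have h4 := hl.comp z hq
    rw [ContinuousLinearMap.id_comp] at h4
    exact h4
  -- near `z`
  have hev : ξ =ᶠ[𝓝 z] fun w => ξ z +
      (1 / 2) * Complex.log ((h w + starRingEnd ℂ (g w) + δ) / (ff h g z + δ)) := by
    have hc : ContinuousAt ξ z := hbr.cont.continuousAt hnhds
    have hsm : ∀ᶠ w in 𝓝 z, dist (ξ w) (ξ z) < 1 := hc.eventually (ball_mem_nhds _ one_pos)
    filter_upwards [hsm, hnhds] with w hw hwb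
    have e1 : (h w + starRingEnd ℂ (g w) + δ) / (ff h g z + δ) =
        Complex.exp (2 * (ξ w - ξ z)) := by
      have e2 : Complex.exp (2 * (ξ w - ξ z)) = Complex.exp (2 * ξ w) / Complex.exp (2 * ξ z) := by
        rw [mul_sub, Complex.exp_sub]
      rw [hF, ← hbr.exp w hwb, e2]
      field_simp
      ring
    rw [e1, Complex.log_exp]
    · ring
    · have : |(ξ w - ξ z).im| ≤ ‖ξ w - ξ z‖ := Complex.abs_im_le_norm _
      rw [dist_eq_norm] at hw
      have h3 := abs_le.1 (this.trans hw.le)
      have h4 : (2 * (ξ w - ξ z)).im = 2 * (ξ w - ξ z).im := by simp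
      rw [h4]
      have := Real.pi_gt_three
      linarith [h3.1]
    · have : |(ξ w - ξ z).im| ≤ ‖ξ w - ξ z‖ := Complex.abs_im_le_norm _
      rw [dist_eq_norm] at hw
      have h3 := abs_le.1 (this.trans hw.le)
      have h4 : (2 * (ξ w - ξ z)).im = 2 * (ξ w - ξ z).im := by simp
      rw [h4]
      have := Real.pi_gt_three
      linarith [h3.2]
  have hfin := ((hlog.const_mul (1 / 2 : ℂ)).const_add (ξ z)).congr_of_eventuallyEq hev
  refine hfin.congr_fderiv ?_
  apply ContinuousLinearMap.ext
  intro v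
  simp [wd]
  field_simp

end

end Pool.Agent.Lib.MP_7682a8_an.KB.H74
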