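import Pool.Agent.Lib.MP_7682a8_an.KB.Iface

/-! Module INN: lower bound for the integral of `J` over the inner annulus. -/

set_option autoImplicit false

open Metric Set MeasureTheory Filter
open scoped Topology

namespace Pool.Agent.Lib.MP_7682a8_an.KB.H74

open Pool.Agent.Lib.MP_7682a8_an.KB

noncomputable section

lemma epsb_cont : Continuous epsb := by
  unfold epsb
  fun_prop

lemma mb_cont (K : Set ℝ) (X s : ℝ → ℝ) (hX : ContinuousOn X K) (hs : ContinuousOn s K)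
    (hs0 : ∀ r ∈ K, s r ≠ 0) : ContinuousOn (fun r => mb (X r) (s r)) K := by
  unfold mb
  fun_prop (disch := assumption)

lemma eb_cont (κ R ε : ℝ) (hG0 : 0 < R) (hR1 : R < 1) (hε : 0 < ε)
    (hden : ∀ r : ℝ, 0 < r → r ≤ R →
      0 < 1 - r ^ 2 - 4 * r * mb (κ * r / (1 - r)) (r ^ 2 / R ^ 2)) :
    ContinuousOn (fun r => eb r (κ * r / (1 - r)) (r ^ 2 / R ^ 2)) (Icc ε R) := by
  have hX : ContinuousOn (fun r : ℝ => κ * r / (1 - r)) (Icc ε R) := by
    refine ContinuousOn.div (by fun_prop) (by fun_prop) ?_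
    intro r hr
    have := hr.2
    linarith
  have hs : ContinuousOn (fun r : ℝ => r ^ 2 / R ^ 2) (Icc ε R) := by fun_prop
  have he : ContinuousOn (fun r : ℝ => epsb (κ * r / (1 - r))) (Icc ε R) :=
    epsb_cont.comp_continuousOn hX
  have hm : ContinuousOn (fun r : ℝ => mb (κ * r / (1 - r)) (r ^ 2 / R ^ 2)) (Icc ε R) := by
    refine mb_cont (Icc ε R) _ _ hX hs ?_
    intro r hr
    have : 0 < r := lt_of_lt_of_le hε hr.1
    positivity
  unfold eb
  have hd : ContinuousOn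
      (fun r : ℝ => 1 - r ^ 2 - 4 * r * mb (κ * r / (1 - r)) (r ^ 2 / R ^ 2)) (Icc ε R) := by
    fun_prop
  refine ContinuousOn.add (by fun_prop) (ContinuousOn.div (by fun_prop) hd ?_)
  intro r hr
  exact (hden r (lt_of_lt_of_le hε hr.1) hr.2).ne'

lemma re_int (W : ℝ → ℂ) (hW : Continuous W) (k : ℝ) :
    ∫ θ in (0 : ℝ)..(2 * Real.pi), ((W θ).re + k) =
      (∫ θ in (0 : ℝ)..(2 * Real.pi), W θ).re + 2 * Real.pi * k := by
  have h1 : ∫ θ in (0 : ℝ)..(2 * Real.pi), (W θ).re =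
      (∫ θ in (0 : ℝ)..(2 * Real.pi), W θ).re :=
    Complex.reCLM.intervalIntegral_comp_comm (hW.intervalIntegrable _ _)
  have h2 : ∫ θ in (0 : ℝ)..(2 * Real.pi), ((W θ).re + k) =
      (∫ θ in (0 : ℝ)..(2 * Real.pi), (W θ).re) + ∫ θ in (0 : ℝ)..(2 * Real.pi), k :=
    intervalIntegral.integral_add ((Complex.continuous_re.comp hW).intervalIntegrable _ _)
      intervalIntegrable_const
  rw [h2, h1]
  simp

/-- the integrand of the correction -/
def Ph (h g : ℂ → ℂ) (δ : ℝ) (ξ : ℂ → ℂ) (R r θ : ℝ) : ℂ :=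
  bb g δ ξ (circleMap 0 r θ) * (E0 (Complex.exp (ξ (circleMap 0 r θ))) - 1 +
        2 * (aa h δ ξ (circleMap 0 r θ) - 1) *
          MM (r ^ 2 / R ^ 2) (Complex.exp (ξ (circleMap 0 r θ))))

lemma E0_cont : Continuous E0 := by
  unfold E0
  fun_prop

lemma MM_cont {T : Type*} [TopologicalSpace T] (s : T → ℝ) (G : T → ℂ) (hs : Continuous s)
    (hG : Continuous G) (hs0 : ∀ t, s t ≠ 0) : Continuous fun t => MM (s t) (G t) := by
  unfold MM
  have h1 : Continuous fun t => 1 / s t := continuous_const.div hs hs0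
  have h2 : Continuous fun t => (((1 - s t) / 2 : ℝ) : ℂ) :=
    Complex.continuous_ofReal.comp (by fun_prop)
  have h3 : Continuous fun t => ((5 / 2 * (1 / s t - 1) : ℝ) : ℂ) :=
    Complex.continuous_ofReal.comp (by fun_prop)
  fun_prop

lemma cm_mem {r : ℝ} (h0 : 0 < r) (h1 : r < 1) (θ : ℝ) :
    circleMap 0 r θ ∈ ball (0 : ℂ) 1 \ {0} := by
  have hn : ‖circleMap 0 r θ‖ = r := by
    rw [norm_circleMap_zero, abs_of_pos h0]
  refine ⟨?_, ?_⟩
  · rw [mem_ball_zero_iff, hn]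
    exact h1
  · intro h2
    rw [mem_singleton_iff] at h2
    rw [h2, norm_zero] at hn
    linarith

/-- joint continuity with a clamped radius -/
lemma Ph_cont (h g : ℂ → ℂ) (δ : ℝ) (ξ : ℂ → ℂ) (R : ℝ) (hR : 0 < R)
    (ca : ContinuousOn (aa h δ ξ) (ball (0 : ℂ) 1 \ {0}))
    (cb : ContinuousOn (bb g δ ξ) (ball (0 : ℂ) 1 \ {0}))
    (cx : ContinuousOn ξ (ball (0 : ℂ) 1)) {T : Type*} [TopologicalSpace T] (ρ τ : T → ℝ)
    (hρ : Continuous ρ) (hτ : Continuous τ) (h0 : ∀ t, 0 < ρ t) (h1 : ∀ t, ρ t < 1) :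
    Continuous fun t => Ph h g δ ξ R (ρ t) (τ t) := by
  have hz : Continuous fun t => circleMap 0 (ρ t) (τ t) := by
    unfold circleMap
    fun_prop
  have hm : ∀ t, circleMap 0 (ρ t) (τ t) ∈ ball (0 : ℂ) 1 \ {0} := fun t => cm_mem (h0 t) (h1 t) _
  have k1 : Continuous fun t => aa h δ ξ (circleMap 0 (ρ t) (τ t)) := ca.comp_continuous hz hm
  have k2 : Continuous fun t => bb g δ ξ (circleMap 0 (ρ t) (τ t)) := cb.comp_continuous hz hm
  have k3 : Continuous fun t => ξ (circleMap 0 (ρ t) (τ t)) :=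
    cx.comp_continuous hz fun t => (hm t).1
  have k4 : Continuous fun t => Complex.exp (ξ (circleMap 0 (ρ t) (τ t))) :=
    Complex.continuous_exp.comp k3
  have k5 : Continuous fun t => E0 (Complex.exp (ξ (circleMap 0 (ρ t) (τ t)))) := E0_cont.comp k4
  have k6 : Continuous fun t => MM (ρ t ^ 2 / R ^ 2) (Complex.exp (ξ (circleMap 0 (ρ t) (τ t)))) := by
    refine MM_cont (fun t => ρ t ^ 2 / R ^ 2) _ (by fun_prop) k4 ?_
    intro t
    have := h0 t
    positivity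
  unfold Ph
  fun_prop

/-- the inequality on a circle -/
lemma circ_ineq (hCon : ConStmt) (hWnd : WndStmt) (hPwa : PwaStmt) (hSup : SupStmt)
    (κ R L : ℝ) (h g : ℂ → ℂ) (δ : ℝ) (ξ : ℂ → ℂ) (hG : Good κ R L) (hom : Om h g δ)
    (hbr : Br h g δ ξ) (hsw : Sw h g) (hgr : ∀ z ∈ ball (0 : ℂ) 1, ‖ξ z‖ ≤ κ * ‖z‖ / (1 - ‖z‖))
    (r : ℝ) (hr0 : 0 < r) (hrR : r ≤ R) :
    2 * Real.pi - 2 * (∫ θ in (0 : ℝ)..(2 * Real.pi), Ph h g δ ξ R r θ).re -
      2 * Real.pi * eb r (κ * r / (1 - r)) (r ^ 2 / R ^ 2) ≤ JJ h g δ ξ r := by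
  obtain ⟨ca, cb, -, -, -, hab⟩ := hCon h g δ ξ hom hbr
  have hab' := hab hsw
  have hR0 := hG.R0
  have hR1 := hG.R1
  have hκ := hG.κ0
  have hr1 : r < 1 := lt_of_le_of_lt hrR hR1
  have hm : ∀ θ : ℝ, circleMap 0 r θ ∈ ball (0 : ℂ) 1 \ {0} := fun θ => cm_mem hr0 hr1 _
  have hz : Continuous fun θ : ℝ => circleMap 0 r θ := by
    unfold circleMap
    fun_prop
  have k1 : Continuous fun θ : ℝ => aa h δ ξ (circleMap 0 r θ) := ca.comp_continuous hz hm
  have k2 : Continuous fun θ : ℝ => bb g δ ξ (circleMap 0 r θ) := cb.comp_continuous hz hm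
  have k3 : Continuous fun θ : ℝ => Ph h g δ ξ R r θ :=
    Ph_cont h g δ ξ R hR0 ca cb hbr.cont (fun _ => r) (fun θ => θ) continuous_const continuous_id
      (fun _ => hr0) (fun _ => hr1)
  obtain ⟨X, hX⟩ : ∃ X, X = κ * r / (1 - r) := ⟨_, rfl⟩
  obtain ⟨s, hs⟩ : ∃ s, s = r ^ 2 / R ^ 2 := ⟨_, rfl⟩
  have hX1 : X ≤ 18 / 25 := by
    refine le_trans ?_ hG.X1
    rw [hX, div_le_div_iff₀ (by linarith) (by linarith)]
    have : κ * r ≤ κ * R := mul_le_mul_of_nonneg_left hrR hκ.le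
    nlinarith
  have hs0 : 0 < s := by
    rw [hs]
    positivity
  have hs1 : s ≤ 1 := by
    rw [hs, div_le_one (by positivity)]
    exact pow_le_pow_left₀ hr0.le hrR 2
  have hden : 0 < 1 - r ^ 2 - 4 * r * mb X s := by
    rw [hX, hs]
    exact hG.den r hr0 hrR
  rw [← hX, ← hs]
  -- the pointwise inequality
  have hpt : ∀ θ : ℝ, (2 * (aa h δ ξ (circleMap 0 r θ) - bb g δ ξ (circleMap 0 r θ)) -
      2 * Ph h g δ ξ R r θ).re + (-1 - eb r X s) ≤
        ‖aa h δ ξ (circleMap 0 r θ)‖ ^ 2 - ‖bb g δ ξ (circleMap 0 r θ)‖ ^ 2 := by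
    intro θ
    have hn : ‖circleMap 0 r θ‖ = r := by
      rw [norm_circleMap_zero, abs_of_pos hr0]
    have hx := hgr _ (hm θ).1
    rw [hn, ← hX] at hx
    obtain ⟨hE, hM⟩ := hSup (ξ (circleMap 0 r θ)) X s hx hX1 hs0 hs1
    have hb := hab' _ (hm θ).1
    rw [hn] at hb
    have hp := hPwa _ _ _ _ r _ _ hr0.le hb hE hM hden
    have e1 : Ph h g δ ξ R r θ = bb g δ ξ (circleMap 0 r θ) *
        (E0 (Complex.exp (ξ (circleMap 0 r θ))) - 1 + 2 * (aa h δ ξ (circleMap 0 r θ) - 1) *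
          MM s (Complex.exp (ξ (circleMap 0 r θ)))) := by
      rw [hs]
      rfl
    rw [← e1] at hp
    have e2 : (2 * (aa h δ ξ (circleMap 0 r θ) - bb g δ ξ (circleMap 0 r θ)) -
        2 * Ph h g δ ξ R r θ).re = 2 * (aa h δ ξ (circleMap 0 r θ) -
          bb g δ ξ (circleMap 0 r θ) - 1).re + 2 - 2 * (Ph h g δ ξ R r θ).re := by
      simp
      ring
    rw [e2]
    unfold eb
    linarith
  have hWc : Continuous fun θ : ℝ => 2 * (aa h δ ξ (circleMap 0 r θ) -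
      bb g δ ξ (circleMap 0 r θ)) - 2 * Ph h g δ ξ R r θ :=
    (continuous_const.mul (k1.sub k2)).sub (continuous_const.mul k3)
  have hI : ∫ θ in (0 : ℝ)..(2 * Real.pi), ((2 * (aa h δ ξ (circleMap 0 r θ) -
      bb g δ ξ (circleMap 0 r θ)) - 2 * Ph h g δ ξ R r θ).re + (-1 - eb r X s)) ≤
        JJ h g δ ξ r := by
    unfold JJ
    refine intervalIntegral.integral_mono_on (by positivity) ?_ ?_ fun θ _ => hpt θ
    · exact Continuous.intervalIntegrable ((Complex.continuous_re.comp hWc).add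
        continuous_const) _ _
    · exact Continuous.intervalIntegrable ((k1.norm.pow 2).sub (k2.norm.pow 2)) _ _
  rw [re_int _ hWc] at hI
  have hI2 : ∫ θ in (0 : ℝ)..(2 * Real.pi), (2 * (aa h δ ξ (circleMap 0 r θ) -
      bb g δ ξ (circleMap 0 r θ)) - 2 * Ph h g δ ξ R r θ) =
      2 * (2 * Real.pi : ℂ) - 2 * ∫ θ in (0 : ℝ)..(2 * Real.pi), Ph h g δ ξ R r θ := by
    have u1 : IntervalIntegrable (fun θ : ℝ => 2 * (aa h δ ξ (circleMap 0 r θ) -
        bb g δ ξ (circleMap 0 r θ))) volume 0 (2 * Real.pi) :=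
      Continuous.intervalIntegrable (continuous_const.mul (k1.sub k2)) _ _
    have u2 : IntervalIntegrable (fun θ : ℝ => 2 * Ph h g δ ξ R r θ) volume 0 (2 * Real.pi) :=
      Continuous.intervalIntegrable (continuous_const.mul k3) _ _
    rw [intervalIntegral.integral_sub u1 u2, intervalIntegral.integral_const_mul,
      intervalIntegral.integral_const_mul, hWnd h g δ ξ r hom hbr hr0 hr1]
  rw [hI2] at hI
  have e3 : (2 * (2 * Real.pi : ℂ) - 2 * ∫ θ in (0 : ℝ)..(2 * Real.pi), Ph h g δ ξ R r θ).re =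
      4 * Real.pi - 2 * (∫ θ in (0 : ℝ)..(2 * Real.pi), Ph h g δ ξ R r θ).re := by
    simp
    ring
  rw [e3] at hI
  linarith

theorem inn (hCon : ConStmt) (hWnd : WndStmt) (hBdr : BdrStmt) (hAsb : AsbStmt) (hPwa : PwaStmt)
    (hSup : SupStmt) : InnStmt := by
  intro κ R L h g δ ξ hG hom hbr hsw hgr
  obtain ⟨ca, cb, -, -, cJ, -⟩ := hCon h g δ ξ hom hbr
  have hR0 := hG.R0
  have hR1 := hG.R1
  refine ⟨fun ε => 2 * (-(1 / (4 * (δ : ℂ))) * ∫ θ in (0 : ℝ)..(2 * Real.pi),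
      starRingEnd ℂ (circleMap 0 ε θ * deriv g (circleMap 0 ε θ)) *
        YY R ε (qq ξ (circleMap 0 ε θ))).re, ?_, ?_⟩
  · have h1 := (hAsb h g δ ξ R hom hbr hR0).const_mul (-(1 / (4 * (δ : ℂ))))
    rw [mul_zero] at h1
    have h2 := (Complex.continuous_re.tendsto 0).comp h1
    have h3 := h2.const_mul 2
    rw [Complex.zero_re, mul_zero] at h3
    exact h3
  intro ε hε hεR
  have hle : ε ≤ R := hεR.le
  have hB := hBdr h g δ ξ ε R hom hbr hε hεR hR1
  have hL := hG.int ε hε hεR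
  -- the clamped radius
  obtain ⟨c, hc⟩ : ∃ c : ℝ → ℝ, c = fun r => max ε (min r R) := ⟨_, rfl⟩
  have hcc : Continuous c := by
    rw [hc]
    fun_prop
  have hc0 : ∀ r, 0 < c r := by
    intro r
    rw [hc]
    exact lt_of_lt_of_le hε (le_max_left _ _)
  have hc1 : ∀ r, c r < 1 := by
    intro r
    rw [hc]
    exact max_lt (hεR.trans hR1) (lt_of_le_of_lt (min_le_right _ _) hR1)
  have hcr : ∀ r ∈ Icc ε R, c r = r := by
    intro r hr
    rw [hc]
    simp only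
    rw [min_eq_left hr.2, max_eq_right hr.1]
  have hPc : Continuous fun r : ℝ => ∫ θ in (0 : ℝ)..(2 * Real.pi), Ph h g δ ξ R (c r) θ := by
    refine intervalIntegral.continuous_parametric_intervalIntegral_of_continuous' ?_ _ _
    exact Ph_cont h g δ ξ R hR0 ca cb hbr.cont (fun p : ℝ × ℝ => c p.1) (fun p => p.2)
      (hcc.comp continuous_fst) continuous_snd (fun p => hc0 _) (fun p => hc1 _)
  have hPo : ContinuousOn (fun r : ℝ => ∫ θ in (0 : ℝ)..(2 * Real.pi), Ph h g δ ξ R r θ)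
      (Icc ε R) := by
    refine hPc.continuousOn.congr ?_
    intro r hr
    simp only
    rw [hcr r hr]
  have hne : ∀ r ∈ Icc ε R, r ≠ 0 := fun r hr => (lt_of_lt_of_le hε hr.1).ne'
  have hPo2 : ContinuousOn
      (fun r : ℝ => (∫ θ in (0 : ℝ)..(2 * Real.pi), Ph h g δ ξ R r θ) / (r : ℂ)) (Icc ε R) := by
    refine hPo.div Complex.continuous_ofReal.continuousOn ?_
    intro r hr
    exact_mod_cast hne r hr
  have hec := eb_cont κ R ε hR0 hR1 hε hG.den
  have hec2 : ContinuousOn (fun r => eb r (κ * r / (1 - r)) (r ^ 2 / R ^ 2) / r) (Icc ε R) :=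
    hec.div continuousOn_id hne
  have hi2 : ContinuousOn (fun r : ℝ => 1 / r) (Icc ε R) :=
    continuousOn_const.div continuousOn_id hne
  have hJ2 : ContinuousOn (fun r => JJ h g δ ξ r / r) (Icc ε R) := by
    refine (cJ.mono ?_).div continuousOn_id hne
    intro r hr
    exact ⟨lt_of_lt_of_le hε hr.1, lt_of_le_of_lt hr.2 hR1⟩
  have hPr : ContinuousOn
      (fun r : ℝ => ((∫ θ in (0 : ℝ)..(2 * Real.pi), Ph h g δ ξ R r θ) / (r : ℂ)).re) (Icc ε R) :=
    Complex.continuous_re.comp_continuousOn hPo2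
  have ii : ∀ {f : ℝ → ℝ}, ContinuousOn f (Icc ε R) → IntervalIntegrable f volume ε R :=
    fun hf => ContinuousOn.intervalIntegrable_of_Icc hle hf
  have hmono : ∫ r in ε..R, (2 * Real.pi * (1 / r) -
      2 * ((∫ θ in (0 : ℝ)..(2 * Real.pi), Ph h g δ ξ R r θ) / (r : ℂ)).re -
        2 * Real.pi * (eb r (κ * r / (1 - r)) (r ^ 2 / R ^ 2) / r)) ≤
      ∫ r in ε..R, JJ h g δ ξ r / r := by
    refine intervalIntegral.integral_mono_on hle ?_ (ii hJ2) ?_
    · exact ii (((continuousOn_const.mul hi2).sub (continuousOn_const.mul hPr)).sub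
        (continuousOn_const.mul hec2))
    intro r hr
    have hr0 : 0 < r := lt_of_lt_of_le hε hr.1
    have hci := circ_ineq hCon hWnd hPwa hSup κ R L h g δ ξ hG hom hbr hsw hgr r hr0 hr.2
    have e1 : ((∫ θ in (0 : ℝ)..(2 * Real.pi), Ph h g δ ξ R r θ) / (r : ℂ)).re =
        (∫ θ in (0 : ℝ)..(2 * Real.pi), Ph h g δ ξ R r θ).re / r := Complex.div_ofReal_re _ _
    rw [e1]
    have h3 := div_le_div_of_nonneg_right hci hr0.le
    refine le_trans (le_of_eq ?_) h3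
    ring
  have hsplit : ∫ r in ε..R, (2 * Real.pi * (1 / r) -
      2 * ((∫ θ in (0 : ℝ)..(2 * Real.pi), Ph h g δ ξ R r θ) / (r : ℂ)).re -
        2 * Real.pi * (eb r (κ * r / (1 - r)) (r ^ 2 / R ^ 2) / r)) =
      (∫ r in ε..R, 2 * Real.pi * (1 / r)) -
      (∫ r in ε..R, 2 * ((∫ θ in (0 : ℝ)..(2 * Real.pi), Ph h g δ ξ R r θ) / (r : ℂ)).re) -
        ∫ r in ε..R, 2 * Real.pi * (eb r (κ * r / (1 - r)) (r ^ 2 / R ^ 2) / r) := by
    have u1 : IntervalIntegrable (fun r : ℝ => 2 * Real.pi * (1 / r)) volume ε R :=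
      ii (continuousOn_const.mul hi2)
    have u2 : IntervalIntegrable (fun r : ℝ =>
        2 * ((∫ θ in (0 : ℝ)..(2 * Real.pi), Ph h g δ ξ R r θ) / (r : ℂ)).re) volume ε R :=
      ii (continuousOn_const.mul hPr)
    have u3 : IntervalIntegrable (fun r : ℝ =>
        2 * Real.pi * (eb r (κ * r / (1 - r)) (r ^ 2 / R ^ 2) / r)) volume ε R :=
      ii (continuousOn_const.mul hec2)
    rw [intervalIntegral.integral_sub (u1.sub u2) u3, intervalIntegral.integral_sub u1 u2]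
  rw [hsplit, intervalIntegral.integral_const_mul, intervalIntegral.integral_const_mul,
    intervalIntegral.integral_const_mul, integral_one_div_of_pos hε hR0] at hmono
  have hre : ∫ r in ε..R, ((∫ θ in (0 : ℝ)..(2 * Real.pi), Ph h g δ ξ R r θ) / (r : ℂ)).re =
      (∫ r in ε..R, (∫ θ in (0 : ℝ)..(2 * Real.pi), Ph h g δ ξ R r θ) / (r : ℂ)).re :=
    Complex.reCLM.intervalIntegral_comp_comm
      (ContinuousOn.intervalIntegrable_of_Icc hle hPo2)
  have hB2 : ∫ r in ε..R, (∫ θ in (0 : ℝ)..(2 * Real.pi), Ph h g δ ξ R r θ) / (r : ℂ) =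
      -(1 / (4 * (δ : ℂ))) * ∫ θ in (0 : ℝ)..(2 * Real.pi),
        starRingEnd ℂ (circleMap 0 ε θ * deriv g (circleMap 0 ε θ)) *
          YY R ε (qq ξ (circleMap 0 ε θ)) := hB
  rw [hre, hB2] at hmono
  have hpi := Real.pi_pos
  have h5 : 2 * Real.pi * ∫ r in ε..R, eb r (κ * r / (1 - r)) (r ^ 2 / R ^ 2) / r ≤
      2 * Real.pi * L := mul_le_mul_of_nonneg_left hL (by positivity)
  simp only
  linarith

end

end Pool.Agent.Lib.MP_7682a8_an.KB.H74
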