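import Pool.Agent.Lib.MP_7682a8_an.KB.H74.Assemble
import Pool.Agent.Lib.MP_7682a8_an.KB.H74.Der
import Pool.Agent.Lib.MP_7682a8_an.KB.H74.Asy
import Pool.Agent.Lib.MP_7682a8_an.KB.H74.Inn

/-! MP_7682a8_an, project KB: the Koebe constant of `S_H^0` is at least `1/14`. -/

set_option autoImplicit false

namespace Pool.Agent.Lib.MP_7682a8_an.KB.H74

open Pool.Agent.Lib.MP_7682a8_an.KB

theorem cov14 : COV (1 / 14) := cov14_of der asy inn

theorem ktr_fin : KtrStmt := H88.ktr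

end Pool.Agent.Lib.MP_7682a8_an.KB.H74
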